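import Pool.Agent.W46.MZ.Stm
import Pool.Agent.H447R2.MZ.Tup

set_option autoImplicit false

namespace Pool.Agent.W687.MZ

open Finset Pool.Agent.W46.MZ

noncomputable def G (j : ℕ) : Submodule ℚ ℝ := ⨆ i ∈ range j, Z i

theorem G_zero : G 0 = ⊥ := by simp [G]

theorem G_succ (j : ℕ) : G (j + 1) = G j ⊔ Z j := by
  unfold G
  rw [Finset.range_add_one, Finset.iSup_insert, sup_comm]

theorem le_G {i j : ℕ} (h : i < j) : Z i ≤ G j :=
  le_iSup₂_of_le (f := fun i (_ : i ∈ range j) => Z i) i (mem_range.2 h) le_rfl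

theorem Z_mul {a b : ℕ} {x y : ℝ} (hx : x ∈ Z a) (hy : y ∈ Z b) : x * y ∈ Z (a + b) :=
  Pool.Agent.H447R2.MZ.mul_mem a b x y hx hy

theorem G_mul {q m : ℕ} {u y : ℝ} (hu : u ∈ G q) (hy : y ∈ Z m) : u * y ∈ G (q + m) := by
  have h : G q ≤ (G (q + m)).comap (LinearMap.mulRight ℚ y) := by
    refine iSup₂_le (fun i hi x hx => ?_)
    rw [Submodule.mem_comap]
    exact le_G (by have := mem_range.1 hi; omega) (Z_mul hx hy)
  exact h hu

theorem DROP : S_DROP := by
  intro hfin P hnd p hp
  have hZf : ∀ n, Module.Finite ℚ (Z n) := hfin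
  have hGf : ∀ j, Module.Finite ℚ (G j) := by
    intro j
    induction j with
    | zero => rw [G_zero]; infer_instance
    | succ j ih =>
      rw [G_succ]
      have := hZf j
      infer_instance
  -- the relation
  obtain ⟨q, hqP, u, hu0, huZ, huG⟩ : ∃ q, q ≤ P ∧ ∃ u : ℝ, u ≠ 0 ∧ u ∈ Z q ∧ u ∈ G q := by
    unfold Direct at hnd
    push Not at hnd
    obtain ⟨z, hz, hsum, j, hj, hzj⟩ := hnd
    have hne : ((range (P + 1)).filter (fun j => z j ≠ 0)).Nonempty :=
      ⟨j, mem_filter.2 ⟨hj, hzj⟩⟩
    obtain ⟨q, hq, hmax⟩ := Finset.exists_max_image _ id hne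
    rw [mem_filter, mem_range] at hq
    refine ⟨q, by omega, z q, hq.2, hz q (mem_range.2 hq.1), ?_⟩
    have hs : ∑ j ∈ range (q + 1), z j = 0 := by
      rw [← hsum]
      apply Finset.sum_subset
      · intro i hi; rw [mem_range] at *; omega
      · intro i hi hi2
        by_contra hne'
        have := hmax i (mem_filter.2 ⟨hi, hne'⟩)
        simp only [id] at this
        rw [mem_range] at hi2
        omega
    rw [Finset.sum_range_succ] at hs
    have e : z q = -∑ j ∈ range q, z j := by linarith
    rw [e]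
    apply Submodule.neg_mem
    apply Submodule.sum_mem
    intro i hi
    exact le_G (mem_range.1 hi) (hz i (mem_range.2 (by have := mem_range.1 hi; omega)))
  -- dimensions
  let d : ℕ → ℕ := fun n => Module.finrank ℚ (Z n)
  have hstep1 : ∀ j, Module.finrank ℚ (G (j + 1)) + Module.finrank ℚ (G j ⊓ Z j : Submodule ℚ ℝ) =
      Module.finrank ℚ (G j) + d j := by
    intro j
    have := hGf j
    have := hZf j
    rw [G_succ]
    exact Submodule.finrank_sup_add_finrank_inf_eq (G j) (Z j)
  have hstep2 : ∀ j, q ≤ j → d (j - q) ≤ Module.finrank ℚ (G j ⊓ Z j : Submodule ℚ ℝ) := by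
    intro j hj
    have := hGf j
    have := hZf j
    have hmem : ∀ y : Z (j - q), LinearMap.mulLeft ℚ u (y : ℝ) ∈ (G j ⊓ Z j : Submodule ℚ ℝ) := by
      intro y
      have e : q + (j - q) = j := by omega
      refine Submodule.mem_inf.2 ⟨?_, ?_⟩
      · have := G_mul huG y.2
        rw [e] at this
        exact this
      · have := Z_mul huZ y.2
        rw [e] at this
        exact this
    let f : Z (j - q) →ₗ[ℚ] (G j ⊓ Z j : Submodule ℚ ℝ) :=
      ((LinearMap.mulLeft ℚ u).comp (Z (j - q)).subtype).codRestrict _ hmem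
    apply LinearMap.finrank_le_finrank_of_injective (f := f)
    intro a b hab
    have h2 : u * (a : ℝ) = u * (b : ℝ) := congrArg Subtype.val hab
    exact Subtype.ext (mul_left_cancel₀ hu0 h2)
  have key : ∀ j, Module.finrank ℚ (G j) + ∑ i ∈ range (j - q), d i ≤ ∑ i ∈ range j, d i := by
    intro j
    induction j with
    | zero => simp [G_zero]
    | succ j ih =>
      rw [Finset.sum_range_succ _ j]
      have h1 := hstep1 j
      by_cases hj : q ≤ j
      · have h2 := hstep2 j hj
        have e : j + 1 - q = (j - q) + 1 := by omega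
        rw [e, Finset.sum_range_succ]
        omega
      · have e : j + 1 - q = 0 := by omega
        have e' : j - q = 0 := by omega
        rw [e, Finset.sum_range_zero]
        rw [e', Finset.sum_range_zero] at ih
        omega
  have h := key (p + 1)
  have hmono : ∑ i ∈ range (p - P + 1), d i ≤ ∑ i ∈ range (p + 1 - q), d i := by
    apply Finset.sum_le_sum_of_subset
    intro i hi
    rw [mem_range] at *
    omega
  have hF : Fdim p = Module.finrank ℚ (G (p + 1)) := rfl
  rw [hF]
  unfold Ddim
  calc Module.finrank ℚ (G (p + 1)) + ∑ i ∈ range (p - P + 1), d i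
      ≤ Module.finrank ℚ (G (p + 1)) + ∑ i ∈ range (p + 1 - q), d i := Nat.add_le_add_left hmono _
    _ ≤ _ := h

end Pool.Agent.W687.MZ
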